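import Pool.Agent.H93.EL.Res

/-!
# [H93 EL] THEOREM L (MP_31d0eb_nt), weights of the pairs: the wrap around terms
-/

set_option autoImplicit false

namespace Pool.Agent.H93.EL

open Finset

theorem gi_le_one (n : ℤ) : gi n ≤ 1 := by
  unfold gi
  rcases eq_or_ne n 0 with h | h
  · simp [h]
  · refine inv_le_one_of_one_le₀ ?_
    have : (1 : ℤ) ≤ |n| := Int.one_le_abs h
    exact_mod_cast this

/-- one wrap around term -/
theorem wrap_term (R q r : ℕ) (hR : 1 ≤ R) (hq : R < q) (hr : R < r) (b b' : ℤ) (hb : 2 * |b| < q) (hb' : 2 * |b'| < r) :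
    gi b * gi b' * (1 - |(b : ℝ)| / q - |(b' : ℝ)| / r)⁻¹ ≤
      4 * (gi b * gi b') + 32 / R * gi ((r : ℤ) - 2 * |b'|) := by
  have hR0 : (0 : ℝ) < R := by exact_mod_cast hR
  have hq0 : (0 : ℝ) < q := lt_trans hR0 (by exact_mod_cast hq)
  have hr0 : (0 : ℝ) < r := lt_trans hR0 (by exact_mod_cast hr)
  have hRq : (R : ℝ) ≤ q := by exact_mod_cast hq.le
  have hRr : (R : ℝ) ≤ r := by exact_mod_cast hr.le
  have g1 := gi_nonneg b
  have g2 := gi_nonneg b'
  have g3 := gi_nonneg ((r : ℤ) - 2 * |b'|)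
  set u : ℝ := |(b : ℝ)| with hu
  set v : ℝ := |(b' : ℝ)| with hv
  have hu0 : 0 ≤ u := abs_nonneg _
  have hv0 : 0 ≤ v := abs_nonneg _
  have hbq : 2 * u + 1 ≤ q := by
    have h1 : 2 * |b| + 1 ≤ (q : ℤ) := by omega
    have h2 : ((2 * |b| + 1 : ℤ) : ℝ) ≤ ((q : ℤ) : ℝ) := by exact_mod_cast h1
    push_cast at h2
    exact h2
  have hbr : 2 * v + 1 ≤ r := by
    have h1 : 2 * |b'| + 1 ≤ (r : ℤ) := by omega
    have h2 : ((2 * |b'| + 1 : ℤ) : ℝ) ≤ ((r : ℤ) : ℝ) := by exact_mod_cast h1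
    push_cast at h2
    exact h2
  have hx : 0 < 1 - u / q - v / r := by
    have h1 : u / q < 1 / 2 := by rw [div_lt_iff₀ hq0]; linarith
    have h2 : v / r < 1 / 2 := by rw [div_lt_iff₀ hr0]; linarith
    linarith
  have hpos : 0 ≤ 32 / R * gi ((r : ℤ) - 2 * |b'|) := by positivity
  by_cases c1 : 4 * u ≤ q
  · have h1 : (1 - u / q - v / r)⁻¹ ≤ 4 := by
      rw [inv_le_comm₀ hx (by norm_num)]
      have h1 : u / q ≤ 1 / 4 := by rw [div_le_iff₀ hq0]; linarith
      have h2 : v / r ≤ 1 / 2 := by rw [div_le_iff₀ hr0]; linarith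
      norm_num
      linarith
    have h2 := mul_le_mul_of_nonneg_left h1 (mul_nonneg g1 g2)
    linarith
  by_cases c2 : 4 * v ≤ r
  · have h1 : (1 - u / q - v / r)⁻¹ ≤ 4 := by
      rw [inv_le_comm₀ hx (by norm_num)]
      have h1 : u / q ≤ 1 / 2 := by rw [div_le_iff₀ hq0]; linarith
      have h2 : v / r ≤ 1 / 4 := by rw [div_le_iff₀ hr0]; linarith
      norm_num
      linarith
    have h2 := mul_le_mul_of_nonneg_left h1 (mul_nonneg g1 g2)
    linarith
  · push Not at c1 c2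
    have hup : 0 < u := by nlinarith
    have hvp : 0 < v := by nlinarith
    have e1 : gi b ≤ 4 / q := by
      unfold gi
      rw [← hu, inv_eq_one_div, div_le_div_iff₀ hup hq0]
      linarith
    have e2 : gi b' ≤ 4 / r := by
      unfold gi
      rw [← hv, inv_eq_one_div, div_le_div_iff₀ hvp hr0]
      linarith
    have e3 : gi ((r : ℤ) - 2 * |b'|) = (r - 2 * v)⁻¹ := by
      unfold gi
      push_cast
      rw [← hv, abs_of_pos (by linarith)]
    have hk : 0 < (r : ℝ) - 2 * v := by linarith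
    have hj : 0 < (q : ℝ) - 2 * u := by linarith
    -- 1 - u/q - v/r ≥ (r - 2v)/(2 r)
    have e4 : (r - 2 * v) / (2 * r) ≤ 1 - u / q - v / r := by
      have h1 : u / q ≤ 1 / 2 := by rw [div_le_iff₀ hq0]; linarith
      have h2 : (r - 2 * v) / (2 * r) = 1 / 2 - v / r := by field_simp
      rw [h2]; linarith
    have e5 : (1 - u / q - v / r)⁻¹ ≤ 2 * r * (r - 2 * v)⁻¹ := by
      have h1 : (1 - u / q - v / r)⁻¹ ≤ ((r - 2 * v) / (2 * r))⁻¹ := inv_anti₀ (by positivity) e4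
      rw [inv_div] at h1
      rwa [div_eq_mul_inv] at h1
    rw [e3]
    have h5 : gi b * gi b' * (1 - u / q - v / r)⁻¹ ≤ (4 / q) * (4 / r) * (2 * r * (r - 2 * v)⁻¹) := by
      refine mul_le_mul (mul_le_mul e1 e2 g2 (by positivity)) e5 (inv_nonneg.2 hx.le) (by positivity)
    have h6 : (4 / (q : ℝ)) * (4 / r) * (2 * r * (r - 2 * v)⁻¹) = 32 / q * (r - 2 * v)⁻¹ := by
      field_simp
      norm_num
    have h7 : 32 / (q : ℝ) * (r - 2 * v)⁻¹ ≤ 32 / R * (r - 2 * v)⁻¹ := by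
      refine mul_le_mul_of_nonneg_right ?_ (inv_nonneg.2 hk.le)
      exact div_le_div_of_nonneg_left (by norm_num) hR0 hRq
    have h8 : 0 ≤ 4 * (gi b * gi b') := by positivity
    linarith

/-- the wrap around terms -/
theorem wrap (R q r : ℕ) (hR : 1 ≤ R) (hq : R < q) (hr : R < r) (hr2 : r ≤ 2 * R) :
    ∑ b ∈ Icc (-(R : ℤ)) R, ∑ b' ∈ Icc (-(R : ℤ)) R, (if 2 * |b| < q ∧ 2 * |b'| < r then
      gi b * gi b' * (1 - |(b : ℝ)| / q - |(b' : ℝ)| / r)⁻¹ else 0) ≤
      16 * (1 + Real.log R) ^ 2 + 192 * (1 + Real.log (2 * R)) := by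
  have hR0 : (0 : ℝ) < R := by exact_mod_cast hR
  have hR1 : (1 : ℝ) ≤ R := by exact_mod_cast hR
  have hlog : 0 ≤ Real.log R := Real.log_natCast_nonneg R
  have hlog2 : 0 ≤ Real.log (2 * R) := Real.log_nonneg (by linarith)
  have h1 : ∀ b ∈ Icc (-(R : ℤ)) R, ∀ b' ∈ Icc (-(R : ℤ)) R, (if 2 * |b| < q ∧ 2 * |b'| < r then
      gi b * gi b' * (1 - |(b : ℝ)| / q - |(b' : ℝ)| / r)⁻¹ else 0) ≤
        4 * (gi b * gi b') + 32 / R * (if 2 * |b'| < r then gi ((r : ℤ) - 2 * |b'|) else 0) := by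
    intro b _ b' _
    split_ifs with c1 c2
    · exact wrap_term R q r hR hq hr b b' c1.1 c1.2
    · exact absurd c1.2 c2
    · have := gi_nonneg b
      have := gi_nonneg b'
      have := gi_nonneg ((r : ℤ) - 2 * |b'|)
      positivity
    · have := gi_nonneg b
      have := gi_nonneg b'
      positivity
  refine (sum_le_sum fun b hb => sum_le_sum fun b' hb' => h1 b hb b' hb').trans ?_
  rw [sum_congr rfl fun b _ => sum_add_distrib, sum_add_distrib]
  have h2 : ∑ b ∈ Icc (-(R : ℤ)) R, ∑ b' ∈ Icc (-(R : ℤ)) R, 4 * (gi b * gi b') ≤ 16 * (1 + Real.log R) ^ 2 := by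
    have e1 : ∑ b ∈ Icc (-(R : ℤ)) R, ∑ b' ∈ Icc (-(R : ℤ)) R, 4 * (gi b * gi b') =
        4 * ((∑ b ∈ Icc (-(R : ℤ)) R, gi b) * ∑ b' ∈ Icc (-(R : ℤ)) R, gi b') := by
      rw [sum_mul_sum, mul_sum]
      refine sum_congr rfl fun b _ => ?_
      rw [mul_sum]
    rw [e1]
    have e2 := sum_gi R
    have e3 : 0 ≤ ∑ b ∈ Icc (-(R : ℤ)) R, gi b := sum_nonneg fun _ _ => gi_nonneg _
    have e4 := mul_le_mul e2 e2 e3 (by positivity)
    nlinarith
  have h3 : ∑ b' ∈ Icc (-(R : ℤ)) R, (if 2 * |b'| < r then gi ((r : ℤ) - 2 * |b'|) else 0) ≤ 2 * (1 + Real.log (2 * R)) := by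
    -- split by the sign of b'
    have e1 : ∀ b' ∈ Icc (-(R : ℤ)) R, (if 2 * |b'| < r then gi ((r : ℤ) - 2 * |b'|) else 0) ≤
        (if 0 ≤ b' ∧ 2 * b' < r then gi ((r : ℤ) - 2 * b') else 0) +
          (if b' ≤ 0 ∧ -(2 * b') < r then gi ((r : ℤ) + 2 * b') else 0) := by
      intro b' _
      have n1 : 0 ≤ (if b' ≤ 0 ∧ -(2 * b') < (r : ℤ) then gi ((r : ℤ) + 2 * b') else 0) := by
        split_ifs
        · exact gi_nonneg _
        · exact le_rfl
      have n2 : 0 ≤ (if 0 ≤ b' ∧ 2 * b' < (r : ℤ) then gi ((r : ℤ) - 2 * b') else 0) := by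
        split_ifs
        · exact gi_nonneg _
        · exact le_rfl
      rcases le_total 0 b' with h0 | h0
      · rw [abs_of_nonneg h0]
        by_cases h5 : 2 * b' < (r : ℤ)
        · rw [if_pos h5, if_pos ⟨h0, h5⟩]; linarith
        · rw [if_neg h5]; linarith
      · rw [abs_of_nonpos h0]
        by_cases h5 : 2 * -b' < (r : ℤ)
        · have h6 : -(2 * b') < (r : ℤ) := by linarith
          rw [if_pos h5, if_pos (⟨h0, h6⟩ : b' ≤ 0 ∧ -(2 * b') < (r : ℤ)), show (r : ℤ) - 2 * -b' = r + 2 * b' by ring]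
          linarith
        · rw [if_neg h5]; linarith
    refine (sum_le_sum e1).trans ?_
    rw [sum_add_distrib]
    have e2 : ∑ b' ∈ Icc (-(R : ℤ)) R, (if 0 ≤ b' ∧ 2 * b' < (r : ℤ) then gi ((r : ℤ) - 2 * b') else 0) ≤ 1 + Real.log (2 * R) := by
      rw [← sum_filter]
      have f1 : ∑ b' ∈ (Icc (-(R : ℤ)) R).filter (fun b' => 0 ≤ b' ∧ 2 * b' < (r : ℤ)), gi ((r : ℤ) - 2 * b') =
          ∑ k ∈ ((Icc (-(R : ℤ)) R).filter (fun b' => 0 ≤ b' ∧ 2 * b' < (r : ℤ))).image (fun b' => ((r : ℤ) - 2 * b').toNat),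
            (1 : ℝ) / k := by
        rw [sum_image]
        · refine sum_congr rfl fun b' hb' => ?_
          rw [mem_filter] at hb'
          have f2 : (((r : ℤ) - 2 * b').toNat : ℤ) = (r : ℤ) - 2 * b' := Int.toNat_of_nonneg (by omega)
          have f3 : ((((r : ℤ) - 2 * b').toNat : ℕ) : ℝ) = (((r : ℤ) - 2 * b' : ℤ) : ℝ) := by
            have f4 := congrArg (fun z : ℤ => (z : ℝ)) f2
            simpa only [Int.cast_natCast] using f4
          rw [f3, gi, one_div, abs_of_nonneg]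
          have : (0 : ℤ) ≤ (r : ℤ) - 2 * b' := by omega
          exact_mod_cast this
        · intro x hx y hy hxy
          rw [mem_coe, mem_filter] at hx hy
          simp only at hxy
          omega
      rw [f1]
      refine (sum_le_sum_of_subset_of_nonneg (t := Icc 1 (2 * R)) ?_ fun _ _ _ => by positivity).trans ?_
      · intro k hk
        rw [mem_image] at hk
        obtain ⟨b', hb', rfl⟩ := hk
        rw [mem_filter] at hb'
        rw [mem_Icc]
        omega
      · have := sum_gi_nat (2 * R)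
        push_cast at this
        exact this
    have e3 : ∑ b' ∈ Icc (-(R : ℤ)) R, (if b' ≤ 0 ∧ -(2 * b') < (r : ℤ) then gi ((r : ℤ) + 2 * b') else 0) ≤ 1 + Real.log (2 * R) := by
      rw [← sum_filter]
      have f1 : ∑ b' ∈ (Icc (-(R : ℤ)) R).filter (fun b' => b' ≤ 0 ∧ -(2 * b') < (r : ℤ)), gi ((r : ℤ) + 2 * b') =
          ∑ k ∈ ((Icc (-(R : ℤ)) R).filter (fun b' => b' ≤ 0 ∧ -(2 * b') < (r : ℤ))).image (fun b' => ((r : ℤ) + 2 * b').toNat),
            (1 : ℝ) / k := by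
        rw [sum_image]
        · refine sum_congr rfl fun b' hb' => ?_
          rw [mem_filter] at hb'
          have f2 : (((r : ℤ) + 2 * b').toNat : ℤ) = (r : ℤ) + 2 * b' := Int.toNat_of_nonneg (by omega)
          have f3 : ((((r : ℤ) + 2 * b').toNat : ℕ) : ℝ) = (((r : ℤ) + 2 * b' : ℤ) : ℝ) := by
            have f4 := congrArg (fun z : ℤ => (z : ℝ)) f2
            simpa only [Int.cast_natCast] using f4
          rw [f3, gi, one_div, abs_of_nonneg]
          have : (0 : ℤ) ≤ (r : ℤ) + 2 * b' := by omega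
          exact_mod_cast this
        · intro x hx y hy hxy
          rw [mem_coe, mem_filter] at hx hy
          simp only at hxy
          omega
      rw [f1]
      refine (sum_le_sum_of_subset_of_nonneg (t := Icc 1 (2 * R)) ?_ fun _ _ _ => by positivity).trans ?_
      · intro k hk
        rw [mem_image] at hk
        obtain ⟨b', hb', rfl⟩ := hk
        rw [mem_filter] at hb'
        rw [mem_Icc]
        omega
      · have := sum_gi_nat (2 * R)
        push_cast at this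
        exact this
    linarith
  have h4 : ∑ b ∈ Icc (-(R : ℤ)) R, ∑ b' ∈ Icc (-(R : ℤ)) R,
      32 / R * (if 2 * |b'| < r then gi ((r : ℤ) - 2 * |b'|) else 0) ≤ 192 * (1 + Real.log (2 * R)) := by
    rw [sum_const, nsmul_eq_mul, ← mul_sum]
    have e1 : (((Icc (-(R : ℤ)) R).card : ℕ) : ℝ) ≤ 3 * R := by
      rw [Int.card_Icc]
      have : ((R : ℤ) + 1 - -(R : ℤ)).toNat = 2 * R + 1 := by omega
      rw [this]
      push_cast
      linarith
    have e2 : 0 ≤ ∑ b' ∈ Icc (-(R : ℤ)) R, (if 2 * |b'| < r then gi ((r : ℤ) - 2 * |b'|) else 0) := by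
      refine sum_nonneg fun b' _ => ?_
      split_ifs
      · exact gi_nonneg _
      · exact le_rfl
    calc (((Icc (-(R : ℤ)) R).card : ℕ) : ℝ) * (32 / R * ∑ b' ∈ Icc (-(R : ℤ)) R, (if 2 * |b'| < r then gi ((r : ℤ) - 2 * |b'|) else 0))
        ≤ (3 * R) * (32 / R * (2 * (1 + Real.log (2 * R)))) := by
          refine mul_le_mul e1 ?_ (by positivity) (by positivity)
          exact mul_le_mul_of_nonneg_left h3 (by positivity)
      _ = 192 * (1 + Real.log (2 * R)) := by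
          field_simp
          ring
  linarith

end Pool.Agent.H93.EL
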