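import Mathlib

/-!
# [H93 EL] THEOREM L (MP_31d0eb_nt), weights of the pairs: general lemmas
-/

set_option autoImplicit false

namespace Pool.Agent.H93.EL

open Finset

/-- `1/|n|`, zero at `n = 0` -/
noncomputable def gi (n : ℤ) : ℝ := |(n : ℝ)|⁻¹

theorem gi_nonneg (n : ℤ) : 0 ≤ gi n := inv_nonneg.2 (abs_nonneg _)

theorem gi_zero : gi 0 = 0 := by simp [gi]

theorem gi_neg (n : ℤ) : gi (-n) = gi n := by simp [gi]

theorem sum_gi_nat (N : ℕ) : ∑ n ∈ Icc 1 N, (1 : ℝ) / n ≤ 1 + Real.log N := by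
  have h := harmonic_le_one_add_log N
  rw [harmonic_eq_sum_Icc] at h
  push_cast at h
  simpa [one_div] using h

/-- `∑_{|n| ≤ N} 1/|n| ≤ 2 (1 + log N)` -/
theorem sum_gi (N : ℕ) : ∑ n ∈ Icc (-(N : ℤ)) N, gi n ≤ 2 * (1 + Real.log N) := by
  have h1 : ∑ n ∈ Icc (-(N : ℤ)) N, gi n ≤ ∑ n ∈ (Icc 1 N).image (fun n : ℕ => (n : ℤ)), gi n +
      ∑ n ∈ (Icc 1 N).image (fun n : ℕ => -(n : ℤ)), gi n + gi 0 := by
    have h2 : Icc (-(N : ℤ)) N ⊆ ((Icc 1 N).image (fun n : ℕ => (n : ℤ)) ∪ (Icc 1 N).image (fun n : ℕ => -(n : ℤ))) ∪ {0} := by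
      intro n hn
      rw [mem_Icc] at hn
      rcases lt_trichotomy n 0 with h | h | h
      · refine mem_union_left _ (mem_union_right _ (mem_image.2 ⟨n.natAbs, ?_, ?_⟩))
        · rw [mem_Icc]; omega
        · omega
      · exact mem_union_right _ (mem_singleton.2 h)
      · refine mem_union_left _ (mem_union_left _ (mem_image.2 ⟨n.natAbs, ?_, ?_⟩))
        · rw [mem_Icc]; omega
        · omega
    refine (sum_le_sum_of_subset_of_nonneg h2 fun _ _ _ => gi_nonneg _).trans ?_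
    have hu : ∀ (s t : Finset ℤ), ∑ n ∈ s ∪ t, gi n ≤ ∑ n ∈ s, gi n + ∑ n ∈ t, gi n := fun s t => by
      rw [← sum_union_inter]
      linarith [sum_nonneg (s := s ∩ t) fun (n : ℤ) _ => gi_nonneg n]
    refine (hu _ _).trans ?_
    rw [sum_singleton]
    linarith [hu ((Icc 1 N).image (fun n : ℕ => (n : ℤ))) ((Icc 1 N).image (fun n : ℕ => -(n : ℤ)))]
  have h3 : ∑ n ∈ (Icc 1 N).image (fun n : ℕ => (n : ℤ)), gi n ≤ 1 + Real.log N := by
    rw [sum_image (fun a _ b _ h => by exact_mod_cast h)]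
    refine le_trans (le_of_eq (sum_congr rfl fun n _ => ?_)) (sum_gi_nat N)
    simp [gi]
  have h4 : ∑ n ∈ (Icc 1 N).image (fun n : ℕ => -(n : ℤ)), gi n ≤ 1 + Real.log N := by
    rw [sum_image (fun a _ b _ h => by simpa using h)]
    refine le_trans (le_of_eq (sum_congr rfl fun n _ => ?_)) (sum_gi_nat N)
    simp [gi]
  rw [gi_zero] at h1
  linarith

/-- summing over the pairs first -/
theorem resum (R : ℕ) (hR : 1 ≤ R) (Q : Finset ℕ) (hQ : ∀ q ∈ Q, q ≤ 2 * R) (Z : ℕ → ℕ → ℝ)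
    (hZ : ∀ q ∈ Q, ∀ r ∈ Q, 0 ≤ Z q r) (D : ℝ)
    (hD : ∀ b b' c : ℤ, b ≠ 0 → b' ≠ 0 → c ≠ 0 → |b| ≤ R → |b'| ≤ R → |c| ≤ 4 * R ^ 2 →
      ∑ q ∈ Q, ∑ r ∈ Q, (if q < r ∧ b * r + b' * q = c then Z q r else 0) ≤ D) :
    ∑ q ∈ Q, ∑ r ∈ Q, (if q < r then
        Z q r * ∑ b ∈ Icc (-(R : ℤ)) R, ∑ b' ∈ Icc (-(R : ℤ)) R, gi b * gi b' * gi (b * r + b' * q) else 0) ≤
      D * (2 * (1 + Real.log R)) ^ 2 * (2 * (1 + Real.log (4 * R ^ 2))) := by
  classical
  have hD0 : 0 ≤ D := by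
    refine le_trans ?_ (hD 1 1 1 one_ne_zero one_ne_zero one_ne_zero (by simpa using hR) (by simpa using hR) ?_)
    · exact sum_nonneg fun q hq => sum_nonneg fun r hr => by
        split_ifs
        · exact hZ q hq r hr
        · exact le_rfl
    · rw [abs_one]
      have : (1 : ℤ) ≤ R := by exact_mod_cast hR
      nlinarith
  have hlog : 0 ≤ Real.log R := Real.log_natCast_nonneg R
  set C : Finset ℤ := Icc (-((4 * R ^ 2 : ℕ) : ℤ)) ((4 * R ^ 2 : ℕ) : ℤ) with hC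
  -- exchange
  have h1 : ∑ q ∈ Q, ∑ r ∈ Q, (if q < r then
        Z q r * ∑ b ∈ Icc (-(R : ℤ)) R, ∑ b' ∈ Icc (-(R : ℤ)) R, gi b * gi b' * gi (b * r + b' * q) else 0) =
      ∑ b ∈ Icc (-(R : ℤ)) R, ∑ b' ∈ Icc (-(R : ℤ)) R, gi b * gi b' *
        ∑ q ∈ Q, ∑ r ∈ Q, (if q < r then Z q r * gi (b * r + b' * q) else 0) := by
    have e1 : ∀ q ∈ Q, ∀ r ∈ Q, (if q < r then
        Z q r * ∑ b ∈ Icc (-(R : ℤ)) R, ∑ b' ∈ Icc (-(R : ℤ)) R, gi b * gi b' * gi (b * r + b' * q) else 0) =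
        ∑ b ∈ Icc (-(R : ℤ)) R, ∑ b' ∈ Icc (-(R : ℤ)) R,
          gi b * gi b' * (if q < r then Z q r * gi (b * r + b' * q) else 0) := by
      intro q _ r _
      split_ifs
      · rw [mul_sum]
        refine sum_congr rfl fun b _ => ?_
        rw [mul_sum]
        refine sum_congr rfl fun b' _ => ?_
        ring
      · simp
    rw [sum_congr rfl fun q hq => sum_congr rfl fun r hr => e1 q hq r hr]
    rw [sum_congr rfl fun q _ => sum_comm, sum_comm]
    refine sum_congr rfl fun b _ => ?_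
    rw [sum_congr rfl fun q _ => sum_comm, sum_comm]
    refine sum_congr rfl fun b' _ => ?_
    rw [mul_sum]
    refine sum_congr rfl fun q _ => ?_
    rw [mul_sum]
  rw [h1]
  have h2 : ∀ b ∈ Icc (-(R : ℤ)) R, ∀ b' ∈ Icc (-(R : ℤ)) R,
      gi b * gi b' * ∑ q ∈ Q, ∑ r ∈ Q, (if q < r then Z q r * gi (b * r + b' * q) else 0) ≤
        gi b * gi b' * (D * (2 * (1 + Real.log (4 * R ^ 2)))) := by
    intro b hb b' hb'
    rw [mem_Icc] at hb hb'
    rcases eq_or_ne b 0 with h0 | h0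
    · rw [h0, gi_zero]; simp
    rcases eq_or_ne b' 0 with h0' | h0'
    · rw [h0', gi_zero]; simp
    refine mul_le_mul_of_nonneg_left ?_ (mul_nonneg (gi_nonneg _) (gi_nonneg _))
    have e2 : ∑ q ∈ Q, ∑ r ∈ Q, (if q < r then Z q r * gi (b * r + b' * q) else 0) =
        ∑ c ∈ C, gi c * ∑ q ∈ Q, ∑ r ∈ Q, (if q < r ∧ b * r + b' * q = c then Z q r else 0) := by
      have e3 : ∀ q ∈ Q, ∀ r ∈ Q, (if q < r then Z q r * gi (b * r + b' * q) else 0) =
          ∑ c ∈ C, gi c * (if q < r ∧ b * r + b' * q = c then Z q r else 0) := by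
        intro q hq r hr
        have hmem : b * r + b' * q ∈ C := by
          have a1 : (q : ℤ) ≤ 2 * R := by exact_mod_cast hQ q hq
          have a2 : (r : ℤ) ≤ 2 * R := by exact_mod_cast hQ r hr
          have a3 : (0 : ℤ) ≤ q := Int.natCast_nonneg q
          have a4 : (0 : ℤ) ≤ r := Int.natCast_nonneg r
          rw [hC, mem_Icc]
          push_cast
          constructor <;> nlinarith
        by_cases hlt : q < r
        · rw [if_pos hlt, sum_eq_single_of_mem (b * r + b' * q) hmem]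
          · rw [if_pos ⟨hlt, rfl⟩]; ring
          · intro c _ hc
            rw [if_neg (fun h => hc h.2.symm), mul_zero]
        · rw [if_neg hlt]
          refine (sum_eq_zero fun c _ => ?_).symm
          rw [if_neg (fun h => hlt h.1), mul_zero]
      rw [sum_congr rfl fun q hq => sum_congr rfl fun r hr => e3 q hq r hr]
      rw [sum_congr rfl fun q _ => sum_comm, sum_comm]
      refine sum_congr rfl fun c _ => ?_
      rw [mul_sum]
      refine sum_congr rfl fun q _ => ?_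
      rw [mul_sum]
    rw [e2]
    have e4 : ∀ c ∈ C, gi c * ∑ q ∈ Q, ∑ r ∈ Q, (if q < r ∧ b * r + b' * q = c then Z q r else 0) ≤ gi c * D := by
      intro c hc
      rcases eq_or_ne c 0 with hc0 | hc0
      · rw [hc0, gi_zero]; simp
      refine mul_le_mul_of_nonneg_left (hD b b' c h0 h0' hc0 (abs_le.2 hb) (abs_le.2 hb') ?_) (gi_nonneg _)
      rw [hC, mem_Icc] at hc
      push_cast at hc
      exact abs_le.2 hc
    refine (sum_le_sum e4).trans ?_
    rw [← sum_mul]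
    have e5 := sum_gi (4 * R ^ 2)
    push_cast at e5
    have e6 : ∑ c ∈ C, gi c ≤ 2 * (1 + Real.log (4 * R ^ 2)) := by
      rw [hC]
      push_cast
      exact e5
    calc (∑ c ∈ C, gi c) * D ≤ 2 * (1 + Real.log (4 * R ^ 2)) * D := mul_le_mul_of_nonneg_right e6 hD0
      _ = D * (2 * (1 + Real.log (4 * R ^ 2))) := by ring
  refine (sum_le_sum fun b hb => sum_le_sum fun b' hb' => h2 b hb b' hb').trans ?_
  have hlog2 : 0 ≤ Real.log (4 * R ^ 2) := by
    refine Real.log_nonneg ?_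
    have : (1 : ℝ) ≤ R := by exact_mod_cast hR
    nlinarith
  have h3 : ∑ b ∈ Icc (-(R : ℤ)) R, ∑ b' ∈ Icc (-(R : ℤ)) R, gi b * gi b' * (D * (2 * (1 + Real.log (4 * R ^ 2)))) =
      (∑ b ∈ Icc (-(R : ℤ)) R, gi b) * (∑ b' ∈ Icc (-(R : ℤ)) R, gi b') * (D * (2 * (1 + Real.log (4 * R ^ 2)))) := by
    rw [sum_mul_sum, sum_mul]
    refine sum_congr rfl fun b _ => ?_
    rw [sum_mul]
  rw [h3]
  have h4 := sum_gi R
  have h5 : 0 ≤ ∑ b ∈ Icc (-(R : ℤ)) R, gi b := sum_nonneg fun _ _ => gi_nonneg _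
  have h6 : 0 ≤ D * (2 * (1 + Real.log (4 * R ^ 2))) := by positivity
  calc (∑ b ∈ Icc (-(R : ℤ)) R, gi b) * (∑ b' ∈ Icc (-(R : ℤ)) R, gi b') * (D * (2 * (1 + Real.log (4 * R ^ 2)))) ≤
      (2 * (1 + Real.log R)) * (2 * (1 + Real.log R)) * (D * (2 * (1 + Real.log (4 * R ^ 2)))) := by
        refine mul_le_mul_of_nonneg_right ?_ h6
        exact mul_le_mul h4 h4 h5 (by positivity)
    _ = _ := by ring

end Pool.Agent.H93.EL
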